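import Pool.Agent.Helper1.MT.Defs

/-!
# Project MT, module MT-E: expansion of the sieve sum
-/

set_option autoImplicit false

open Finset

namespace Pool.Agent.Helper46.MT

open Pool.Agent.Helper1.MT

section

variable {ι κ : Type} [Fintype ι] [Fintype κ] [DecidableEq ι] [DecidableEq κ]

theorem le_iff (c c' s : ι → Option κ) :
    (Le c s ∧ Le c' s) ↔ (Compat c c' ∧ Le (join c c') s) := by
  unfold Le Compat join
  constructor
  · rintro ⟨h1, h2⟩
    refine ⟨fun p => ?_, fun p => ?_⟩
    · rcases h1 p with h | h
      · exact Or.inl h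
      · rcases h2 p with h' | h'
        · exact Or.inr (Or.inl h')
        · exact Or.inr (Or.inr (h.trans h'.symm))
    · by_cases hc : (c p).isSome
      · simp only [hc, if_true]
        exact h1 p
      · rw [if_neg hc]
        exact h2 p
  · rintro ⟨h1, h2⟩
    refine ⟨fun p => ?_, fun p => ?_⟩
    · by_cases hc : (c p).isSome
      · have := h2 p
        simpa only [hc, if_true] using this
      · left
        simpa using hc
    · by_cases hc : (c p).isSome
      · have h3 := h2 p
        simp only [hc, if_true] at h3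
        rcases h1 p with h | h | h
        · rw [h] at hc; simp at hc
        · exact Or.inl h
        · rw [← h]; exact h3
      · have h3 := h2 p
        rw [if_neg hc] at h3
        exact h3

/-- The probability that `σ` extends `u`. -/
theorem sum_ext (P : ι → Option κ → ℝ) (hP : ∀ p, ∑ a : Option κ, P p a = 1)
    (u : ι → Option κ) :
    ∑ s : ι → Option κ, (if Le u s then ∏ p, P p (s p) else 0) =
      ∏ p ∈ supp u, P p (u p) := by
  have h1 : ∀ s : ι → Option κ, (if Le u s then ∏ p, P p (s p) else 0) =
      ∏ p, (if u p = none ∨ u p = s p then P p (s p) else 0) := by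
    intro s
    by_cases h : Le u s
    · rw [if_pos h]
      exact prod_congr rfl fun p _ => by rw [if_pos (h p)]
    · rw [if_neg h]
      unfold Le at h
      push Not at h
      obtain ⟨p, hp⟩ := h
      refine (prod_eq_zero (mem_univ p) ?_).symm
      rw [if_neg]
      rintro (h | h)
      · exact hp.1 h
      · exact hp.2 h
  have h2 := (prod_univ_sum (fun _ : ι => (univ : Finset (Option κ)))
    fun p a => if u p = none ∨ u p = a then P p a else 0).symm
  rw [Fintype.piFinset_univ] at h2
  rw [sum_congr rfl fun s _ => h1 s, h2]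
  unfold supp
  rw [prod_filter]
  refine prod_congr rfl fun p _ => ?_
  by_cases hp : u p = none
  · simp [hp, hP p]
  · have : ∀ a : Option κ, (if u p = none ∨ u p = a then P p a else 0) =
        if u p = a then P p a else 0 := fun a => by simp [hp]
    rw [sum_congr rfl fun a _ => this a]
    simp [hp]

theorem sq_expand (f : (ι → Option κ) → ℝ) (s : ι → Option κ) :
    (∑ c ∈ univ.filter (fun c : ι → Option κ => Le c s), f c) ^ 2 =
      ∑ c : ι → Option κ, ∑ c' : ι → Option κ,
        (open Classical in if Compat c c' then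
          (f c * f c') * (if Le (join c c') s then 1 else 0) else 0) := by
  classical
  rw [sum_filter, sq, sum_mul_sum]
  refine sum_congr rfl fun c _ => sum_congr rfl fun c' _ => ?_
  have h := le_iff c c' s
  by_cases h1 : Le c s
  · by_cases h2 : Le c' s
    · obtain ⟨h3, h4⟩ := h.1 ⟨h1, h2⟩
      simp [h1, h2, h3, h4]
    · have h3 : ¬ (Compat c c' ∧ Le (join c c') s) := fun h' => h2 (h.2 h').2
      by_cases h4 : Compat c c'
      · have h5 : ¬ Le (join c c') s := fun h' => h3 ⟨h4, h'⟩
        simp [h2, h5]
      · simp [h2, h4]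
  · have h3 : ¬ (Compat c c' ∧ Le (join c c') s) := fun h' => h1 (h.2 h').1
    by_cases h4 : Compat c c'
    · have h5 : ¬ Le (join c c') s := fun h' => h3 ⟨h4, h'⟩
      simp [h1, h5]
    · simp [h1, h4]

theorem sum_side (f : (ι → Option κ) → ℝ) (F : Finset ℕ) (ν : ℕ → ℝ)
    (σ : ℕ → ι → Option κ) :
    ∑ n ∈ F, ν n * (∑ c ∈ univ.filter (fun c : ι → Option κ => Le c (σ n)), f c) ^ 2 =
      ∑ c : ι → Option κ, ∑ c' : ι → Option κ,
        (open Classical in if Compat c c' then
          (f c * f c') * ∑ n ∈ F.filter (fun n => Le (join c c') (σ n)), ν n else 0) := by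
  classical
  rw [sum_congr rfl fun n _ => by rw [sq_expand f (σ n), mul_sum]]
  rw [sum_comm]
  refine sum_congr rfl fun c _ => ?_
  rw [sum_congr rfl fun n _ => mul_sum _ _ _]
  rw [sum_comm]
  refine sum_congr rfl fun c' _ => ?_
  by_cases h : Compat c c'
  · simp only [h, if_true]
    rw [sum_filter, mul_sum]
    refine sum_congr rfl fun n _ => ?_
    by_cases h' : Le (join c c') (σ n)
    · simp [h']; ring
    · simp [h']
  · simp [h]

theorem Qf_side (P : ι → Option κ → ℝ) (hP : ∀ p, ∑ a : Option κ, P p a = 1)
    (f : (ι → Option κ) → ℝ) :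
    Qf P f = ∑ c : ι → Option κ, ∑ c' : ι → Option κ,
        (open Classical in if Compat c c' then
          (f c * f c') * ∏ p ∈ supp (join c c'), P p (join c c' p) else 0) := by
  classical
  unfold Qf
  rw [sum_congr rfl fun s _ => by rw [sq_expand f s, mul_sum]]
  rw [sum_comm]
  refine sum_congr rfl fun c _ => ?_
  rw [sum_congr rfl fun n _ => mul_sum _ _ _]
  rw [sum_comm]
  refine sum_congr rfl fun c' _ => ?_
  by_cases h : Compat c c'
  · simp only [h, if_true]
    rw [← sum_ext P hP, mul_sum]
    refine sum_congr rfl fun n _ => ?_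
    by_cases h' : Le (join c c') n
    · simp [h']; ring
    · simp [h']
  · simp [h]

end

theorem expand : Expand := by
  classical
  intro ι κ _ _ _ _ P f F ν σ X E hP hE
  rw [sum_side, Qf_side P hP, mul_sum, ← sum_sub_distrib]
  refine (abs_sum_le_sum_abs _ _).trans (sum_le_sum fun c _ => ?_)
  rw [mul_sum, ← sum_sub_distrib]
  refine (abs_sum_le_sum_abs _ _).trans (sum_le_sum fun c' _ => ?_)
  by_cases h : Compat c c'
  · simp only [h, if_true]
    have e : (f c * f c') * ∑ n ∈ F.filter (fun n => Le (join c c') (σ n)), ν n -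
        X * ((f c * f c') * ∏ p ∈ supp (join c c'), P p (join c c' p)) =
        (f c * f c') * (∑ n ∈ F.filter (fun n => Le (join c c') (σ n)), ν n -
          X * ∏ p ∈ supp (join c c'), P p (join c c' p)) := by ring
    rw [e, abs_mul, abs_mul]
    by_cases h1 : f c = 0
    · simp [h1]
    · by_cases h2 : f c' = 0
      · simp [h2]
      · exact mul_le_mul_of_nonneg_left (hE c c' h1 h2 h) (by positivity)
  · simp [h]

end Pool.Agent.Helper46.MT
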